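import Mathlib
import Pool.Agent.Y58.HT.Stm

/-!
# Project HT, block EIG: roots of unity and reduction modulo `p`
-/

set_option autoImplicit false

universe u v

namespace Pool.Agent.Y372.HT

open Polynomial

/-- a polynomial over `R` vanishing at `ζ` vanishes at `1` after applying `f` -/
theorem eval_one {K : Type u} [Field K] (R : Subring K) {k : Type v} [Field k] (f : R →+* k) (t : R)
    (ζ : K) (hζ : ζ ≠ 0) (h : ζ + ζ⁻¹ = (t : K)) (hf : f t = 2) (q : R[X])
    (hq : q.eval₂ R.subtype ζ = 0) : q.eval₂ f 1 = 0 := by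
  have hm : (X ^ 2 + (1 - C t * X) : R[X]).Monic := by
    refine monic_X_pow_add ?_
    refine lt_of_le_of_lt (degree_sub_le _ _) ?_
    rw [max_lt_iff]
    constructor
    · rw [degree_one]; norm_num
    · refine lt_of_le_of_lt (degree_C_mul_X_le _) ?_
      norm_num
  obtain ⟨r, hr⟩ : ∃ r, r = q %ₘ (X ^ 2 + (1 - C t * X) : R[X]) := ⟨_, rfl⟩
  obtain ⟨s, hs⟩ : ∃ s, s = q /ₘ (X ^ 2 + (1 - C t * X) : R[X]) := ⟨_, rfl⟩
  have hdiv : r + (X ^ 2 + (1 - C t * X)) * s = q := by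
    rw [hr, hs]
    exact modByMonic_add_div q (X ^ 2 + (1 - C t * X) : R[X])
  have hmd : (X ^ 2 + (1 - C t * X) : R[X]).degree = 2 := by
    have h1 : (1 - C t * X : R[X]).degree < ((X : R[X]) ^ 2).degree := by
      rw [degree_X_pow]
      refine lt_of_le_of_lt (degree_sub_le _ _) ?_
      rw [max_lt_iff]
      constructor
      · rw [degree_one]; norm_num
      · refine lt_of_le_of_lt (degree_C_mul_X_le _) ?_
        norm_num
    rw [degree_add_eq_left_of_degree_lt h1, degree_X_pow]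
    rfl
  have hrd : r.degree ≤ 1 := by
    have h1 : r.degree < (X ^ 2 + (1 - C t * X) : R[X]).degree := by
      rw [hr]
      exact degree_modByMonic_lt q hm
    rw [hmd] at h1
    exact Order.le_of_lt_succ h1
  have hr2 := eq_X_add_C_of_degree_le_one hrd
  obtain ⟨a, ha⟩ : ∃ a, a = r.coeff 1 := ⟨_, rfl⟩
  obtain ⟨b, hb⟩ : ∃ b, b = r.coeff 0 := ⟨_, rfl⟩
  rw [← ha, ← hb] at hr2
  have e1 : (a : K) * ζ + b = 0 := by
    rw [← hdiv, hr2] at hq
    simp only [eval₂_add, eval₂_mul, eval₂_C, eval₂_X, eval₂_sub, eval₂_pow, eval₂_one,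
      Subring.subtype_apply] at hq
    have e2 : ζ ^ 2 + (1 - (t : K) * ζ) = 0 := by
      rw [← h]
      field_simp
      ring
    rw [e2, zero_mul, add_zero] at hq
    exact hq
  have e3 : a ^ 2 + b ^ 2 + a * b * t = 0 := by
    apply Subtype.ext
    show (a : K) ^ 2 + (b : K) ^ 2 + (a : K) * (b : K) * (t : K) = 0
    have e4 : (a : K) ^ 2 + (b : K) ^ 2 + (a : K) * (b : K) * (t : K) =
        ((a : K) * ζ + b) * ((a : K) * ζ⁻¹ + b) := by
      rw [← h]
      field_simp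
      ring
    rw [e4, e1, zero_mul]
  have e5 : f a + f b = 0 := by
    have e6 := congrArg f e3
    simp only [map_add, map_mul, map_pow, map_zero, hf] at e6
    have e7 : (f a + f b) ^ 2 = 0 := by rw [← e6]; ring
    exact pow_eq_zero_iff two_ne_zero |>.1 e7
  rw [← hdiv, hr2]
  simp only [eval₂_add, eval₂_mul, eval₂_C, eval₂_X, eval₂_sub, eval₂_pow, eval₂_one, hf]
  rw [mul_one, e5]
  norm_num

theorem eig {K : Type u} [Field K] (R : Subring K) {k : Type v} [Field k]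
    (f : R →+* k) (p : ℕ) [Fact p.Prime] [CharP k p] (t : R) (ζ : K) (n : ℕ) (hn : 0 < n)
    (hζ : ζ ^ n = 1) (h : ζ + ζ⁻¹ = (t : K)) (hf : f t = 2) : ∃ a : ℕ, ζ ^ p ^ a = 1 := by
  have hp : p.Prime := Fact.out
  have h0 : ζ ≠ 0 := by
    rintro rfl
    rw [zero_pow hn.ne'] at hζ
    exact zero_ne_one hζ
  have hord : 0 < orderOf ζ := orderOf_pos_iff.2 (isOfFinOrder_iff_pow_eq_one.2 ⟨n, hn, hζ⟩)
  obtain ⟨a, N', hN', hN⟩ := Nat.exists_eq_pow_mul_and_not_dvd hord.ne' p hp.ne_one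
  have hprim : IsPrimitiveRoot (ζ ^ p ^ a) N' :=
    (IsPrimitiveRoot.orderOf ζ).pow hord hN
  refine ⟨a, ?_⟩
  obtain ⟨l, rfl⟩ : ∃ l, N' = l + 1 := by
    rcases N' with _ | l
    · exact absurd (dvd_zero p) hN'
    · exact ⟨l, rfl⟩
  have hprod := hprim.prod_one_sub_pow_eq_order
  rcases l with _ | l
  · have h1 := hprim.pow_eq_one
    rwa [zero_add, pow_one] at h1
  exfalso
  have key := eval_one R f t ζ h0 h hf
    ((∏ j ∈ Finset.range (l + 1), (1 - (X : R[X]) ^ (p ^ a * (j + 1)))) - ((l + 1 + 1 : ℕ) : R[X]))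
    (by
      rw [eval₂_sub, eval₂_finsetProd, eval₂_natCast]
      simp only [eval₂_sub, eval₂_one, eval₂_pow, eval₂_X, pow_mul]
      rw [hprod]
      push_cast
      ring)
  rw [eval₂_sub, eval₂_finsetProd, eval₂_natCast, Finset.prod_eq_zero (Finset.mem_range.2
    (Nat.succ_pos l)), zero_sub, neg_eq_zero, CharP.cast_eq_zero_iff k p] at key
  · exact hN' key
  · simp [eval₂_sub, eval₂_pow]

/-- **block EIG** -/
theorem t_eig : Pool.Agent.Y58.HT.S_EIG.{u} := by
  intro K _ _ R k _ f p _ _ t ζ n hn h1 h2 h3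
  exact eig R f p t ζ n hn h1 h2 h3

end Pool.Agent.Y372.HT
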